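import Pool.Agent.Helper30_Simp.Stmts

/-!
# Rules for `RQ`
-/

set_option autoImplicit false

namespace Pool.Agent.Helper30_Simp.RQ

variable {R : Type*} [CommRing R] {z : R} {P : Set (ℕ × ℕ)}

theorem mono {Q : Set (ℕ × ℕ)} (hPQ : P ⊆ Q) {a : ℕ → R} (h : RQ z P a) : RQ z Q a := by
  induction h with
  | fin a N h => exact .fin a N h
  | step a u v huv _ ih => exact .step a u v (hPQ huv) ih

theorem congr {a b : ℕ → R} (h : RQ z P a) (hab : ∀ m, a m = b m) : RQ z P b := by
  have : a = b := funext hab
  rwa [← this]

theorem zero : RQ z P (fun _ => (0 : R)) := .fin _ 0 fun _ _ => rfl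

/-- constant multiples -/
theorem smul (c : R) {a : ℕ → R} (h : RQ z P a) : RQ z P (fun m => c * a m) := by
  induction h with
  | fin a N h => exact .fin _ N fun m hm => by rw [h m hm, mul_zero]
  | step a u v huv _ ih =>
    refine .step _ u v huv (ih.congr fun m => ?_)
    ring

/-- shifts -/
theorem shift (w : ℕ) {a : ℕ → R} (h : RQ z P a) : RQ z P (fun m => a (m + w)) := by
  induction h with
  | fin a N h => exact .fin _ N fun m hm => h _ (by omega)
  | step a u v huv _ ih =>
    refine .step _ u v huv (ih.congr fun m => ?_)
    simp only [show m + w + v = m + v + w by ring]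

/-- a step applied to a rational sequence -/
theorem op (c : R) (w : ℕ) {a : ℕ → R} (h : RQ z P a) :
    RQ z P (fun m => a (m + w) - c * a m) := by
  induction h with
  | fin a N h => exact .fin _ N fun m hm => by rw [h m hm, h (m + w) (by omega)]; ring
  | step a u v huv _ ih =>
    refine .step _ u v huv (ih.congr fun m => ?_)
    simp only [show m + w + v = m + v + w by ring]
    ring

theorem add_fin {a b : ℕ → R} (h : RQ z P a) (N : ℕ) (hb : ∀ m, N ≤ m → b m = 0) :
    RQ z P (fun m => a m + b m) := by
  induction h generalizing b with
  | fin a N' h =>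
    refine .fin _ (max N N') fun m hm => ?_
    rw [h m (le_trans (le_max_right _ _) hm), hb m (le_trans (le_max_left _ _) hm), add_zero]
  | step a u v huv _ ih =>
    refine .step _ u v huv ((ih (b := fun m => b (m + v) - z ^ u * b m)
      fun m hm => ?_).congr fun m => ?_)
    · simp only [hb m hm, hb (m + v) (by omega)]; ring
    · ring

theorem add {a b : ℕ → R} (ha : RQ z P a) (hb : RQ z P b) : RQ z P (fun m => a m + b m) := by
  induction ha generalizing b with
  | fin a N h => exact (hb.add_fin N h).congr fun m => add_comm _ _
  | step a u v huv _ ih =>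
    refine .step _ u v huv ((ih (hb.op (z ^ u) v)).congr fun m => ?_)
    ring

theorem sub {a b : ℕ → R} (ha : RQ z P a) (hb : RQ z P b) : RQ z P (fun m => a m - b m) :=
  (ha.add (hb.smul (-1))).congr fun m => by ring

theorem sum {ι : Type*} (s : Finset ι) {a : ι → ℕ → R}
    (h : ∀ i ∈ s, RQ z P (a i)) : RQ z P (fun m => ∑ i ∈ s, a i m) := by
  classical
  induction s using Finset.induction_on with
  | empty => simpa using zero
  | insert i s hi ih =>
    refine ((h i (Finset.mem_insert_self _ _)).add
      (ih fun j hj => h j (Finset.mem_insert_of_mem hj))).congr fun m => ?_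
    rw [Finset.sum_insert hi]

/-- changing finitely many entries from below: undoing a shift -/
theorem of_shift (w : ℕ) {a : ℕ → R} (h : RQ z P (fun m => a (m + w))) : RQ z P a := by
  generalize hb : (fun m => a (m + w)) = b at h
  induction h generalizing a with
  | fin b N h =>
    refine .fin _ (N + w) fun m hm => ?_
    have := congrFun hb (m - w)
    simp only [Nat.sub_add_cancel (show w ≤ m by omega)] at this
    rw [this, h _ (by omega)]
  | step b u v huv _ ih =>
    subst hb
    refine .step _ u v huv (ih ?_)
    funext m
    simp only [show m + w + v = m + v + w by ring]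

/-- images under ring homomorphisms -/
theorem map {S : Type*} [CommRing S] (φ : R →+* S) {a : ℕ → R} (h : RQ z P a) :
    RQ (φ z) P (fun m => φ (a m)) := by
  induction h with
  | fin a N h => exact .fin _ N fun m hm => by rw [h m hm, map_zero]
  | step a u v huv _ ih =>
    refine .step _ u v huv (ih.congr fun m => ?_)
    rw [map_sub, map_mul, map_pow]

end Pool.Agent.Helper30_Simp.RQ
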