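import Pool.Agent.Helper30_Simp.Stmts
import Pool.Agent.Helper6_Mono.BRoots

/-!
# Module EROOT: chains over an algebra and roots of the Bernstein-Sato polynomial
-/

set_option autoImplicit false

namespace Pool.Agent.Helper30_Simp.H42

open MvPolynomial Pool.Agent.Helper6_Mono

section ERoot

variable {σ : Type} {E B : Type} [CommRing E] [Algebra ℂ E] [AddCommGroup B] [Module ℂ B]
  [Module E B] [IsScalarTower ℂ E B]

/-- the evaluation of polynomials with polynomial coefficients, the variable acts as `s` -/
noncomputable def evS (act : MvPolynomial σ ℂ →ₐ[ℂ] Module.End E B) (s : E) :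
    Polynomial (MvPolynomial σ ℂ) →ₐ[ℂ] Module.End E B :=
  Polynomial.eval₂AlgHom act (s • (1 : Module.End E B))
    (fun a => by
      refine LinearMap.ext fun b => ?_
      simp)

variable (act : MvPolynomial σ ℂ →ₐ[ℂ] Module.End E B) (s : E)

theorem evS_C (p : MvPolynomial σ ℂ) : evS act s (Polynomial.C p) = act p :=
  Polynomial.eval₂_C _ _

theorem evS_X (b : B) : evS act s Polynomial.X b = s • b := by
  have h : evS act s Polynomial.X = s • (1 : Module.End E B) := Polynomial.eval₂_X _ _
  rw [h, LinearMap.smul_apply, Module.End.one_apply]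

theorem evS_nat (n : ℕ) (b : B) : evS act s (n : Polynomial (MvPolynomial σ ℂ)) b
    = (n : E) • b := by
  rw [map_natCast, Module.End.natCast_apply, Nat.cast_smul_eq_nsmul]

theorem evS_mul (P Q : Polynomial (MvPolynomial σ ℂ)) (b : B) :
    evS act s (P * Q) b = evS act s P (evS act s Q b) := by
  rw [map_mul, Module.End.mul_apply]

theorem evS_map (b : Polynomial ℂ) (x : B) :
    evS act s (b.map C) x = (Polynomial.aeval s b) • x := by
  induction b using Polynomial.induction_on' with
  | add p q hp hq => rw [Polynomial.map_add, map_add, LinearMap.add_apply, hp, hq, map_add, add_smul]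
  | monomial n a =>
    rw [Polynomial.map_monomial, Polynomial.aeval_monomial, ← Polynomial.C_mul_X_pow_eq_monomial,
      evS_mul, evS_C]
    have h1 : ∀ n : ℕ, evS act s (Polynomial.X ^ n) x = s ^ n • x := by
      intro n
      induction n with
      | zero => simp
      | succ n ih =>
        rw [pow_succ', evS_mul, ih, evS_X, smul_smul, pow_succ']
    have h2 : act (C a) = algebraMap ℂ _ a := by
      rw [← act.commutes a]; rfl
    rw [h1, h2, Module.algebraMap_end_apply, mul_smul, algebraMap_smul]

/-- the derivative of the coefficients -/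
noncomputable def DP (i : σ) (Q : Polynomial (MvPolynomial σ ℂ)) :
    Polynomial (MvPolynomial σ ℂ) :=
  ∑ n ∈ Q.support, Polynomial.monomial n (pderiv i (Q.coeff n))

theorem DP_coeff (i : σ) (Q : Polynomial (MvPolynomial σ ℂ)) (m : ℕ) :
    (DP i Q).coeff m = pderiv i (Q.coeff m) := by
  unfold DP
  rw [Polynomial.finsetSum_coeff]
  simp_rw [Polynomial.coeff_monomial]
  rw [Finset.sum_ite_eq' Q.support m]
  split_ifs with h
  · rfl
  · rw [Polynomial.notMem_support_iff.1 h, map_zero]

theorem DP_add (i : σ) (P Q : Polynomial (MvPolynomial σ ℂ)) :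
    DP i (P + Q) = DP i P + DP i Q := by
  refine Polynomial.ext fun m => ?_
  rw [Polynomial.coeff_add, DP_coeff, DP_coeff, DP_coeff, Polynomial.coeff_add, map_add]

theorem DP_monomial (i : σ) (n : ℕ) (a : MvPolynomial σ ℂ) :
    DP i (Polynomial.monomial n a) = Polynomial.monomial n (pderiv i a) := by
  refine Polynomial.ext fun m => ?_
  rw [DP_coeff, Polynomial.coeff_monomial, Polynomial.coeff_monomial]
  split_ifs
  · rfl
  · rw [map_zero]

theorem DP_eval (i : σ) (Q : Polynomial (MvPolynomial σ ℂ)) (z : ℂ) :
    (DP i Q).eval (C z) = pderiv i (Q.eval (C z)) := by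
  induction Q using Polynomial.induction_on' with
  | add p q hp hq => rw [DP_add, Polynomial.eval_add, hp, hq, Polynomial.eval_add, map_add]
  | monomial n a =>
    rw [DP_monomial, Polynomial.eval_monomial, Polynomial.eval_monomial, Derivation.leibniz,
      ← C_pow, pderiv_C, smul_zero, zero_add, smul_eq_mul, mul_comm]

variable {act s} {d : σ → Module.End E B}

theorem leibE
    (leibX : ∀ i j b, d i (act (X j) b) = act (pderiv i (X j)) b + act (X j) (d i b))
    (i : σ) (p : MvPolynomial σ ℂ) (b : B) :
    d i (act p b) = act (pderiv i p) b + act p (d i b) := by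
  induction p using MvPolynomial.induction_on generalizing b with
  | C a =>
    have h : act (C a) = algebraMap ℂ _ a := by
      rw [← act.commutes a]; rfl
    rw [h, Module.algebraMap_end_apply, Module.algebraMap_end_apply, pderiv_C, map_zero,
      LinearMap.zero_apply, zero_add, ← algebraMap_smul E a b, map_smul, algebraMap_smul]
  | add p q hp hq =>
    simp only [map_add, LinearMap.add_apply, hp, hq]
    abel
  | mul_X p j hp =>
    have h : act (X j) (act (pderiv i p) b) = act (pderiv i p) (act (X j) b) := by
      rw [← Module.End.mul_apply, ← Module.End.mul_apply, ← map_mul, ← map_mul,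
        mul_comm (pderiv i p)]
    simp only [map_mul, Module.End.mul_apply, Derivation.leibniz, smul_eq_mul, map_add,
      LinearMap.add_apply, hp, leibX i, h]
    abel

theorem leibS
    (leibX : ∀ i j b, d i (act (X j) b) = act (pderiv i (X j)) b + act (X j) (d i b))
    (i : σ) (Q : Polynomial (MvPolynomial σ ℂ)) (b : B) :
    d i (evS act s Q b) = evS act s (DP i Q) b + evS act s Q (d i b) := by
  induction Q using Polynomial.induction_on' with
  | add p q hp hq =>
    rw [DP_add]
    simp only [map_add, LinearMap.add_apply, hp, hq]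
    abel
  | monomial n a =>
    have h1 : ∀ (n : ℕ) (y : B), evS act s (Polynomial.X ^ n) y = s ^ n • y := by
      intro n y
      induction n with
      | zero => simp
      | succ n ih =>
        rw [pow_succ', evS_mul, ih, evS_X, smul_smul, pow_succ']
    rw [DP_monomial, ← Polynomial.C_mul_X_pow_eq_monomial, ← Polynomial.C_mul_X_pow_eq_monomial,
      evS_mul, evS_mul, evS_mul, evS_C, evS_C, h1, h1, leibE leibX i, map_smul (d i)]

variable {f : MvPolynomial σ ℂ} {psi : ℕ → B} {N : Submodule E B}

theorem act_mem (hact : ∀ i, ∀ b ∈ N, act (X i) b ∈ N) (p : MvPolynomial σ ℂ) :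
    ∀ b ∈ N, act p b ∈ N := by
  induction p using MvPolynomial.induction_on with
  | C a =>
    intro b hb
    have h : act (C a) = algebraMap ℂ _ a := by
      rw [← act.commutes a]; rfl
    rw [h, Module.algebraMap_end_apply, ← algebraMap_smul E a b]
    exact N.smul_mem _ hb
  | add p q hp hq =>
    intro b hb
    rw [map_add, LinearMap.add_apply]
    exact N.add_mem (hp b hb) (hq b hb)
  | mul_X p j hp =>
    intro b hb
    rw [map_mul, Module.End.mul_apply]
    exact hp _ (hact j b hb)

theorem evS_mem (hact : ∀ i, ∀ b ∈ N, act (X i) b ∈ N) (Q : Polynomial (MvPolynomial σ ℂ)) :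
    ∀ b ∈ N, evS act s Q b ∈ N := by
  induction Q using Polynomial.induction_on with
  | C a =>
    intro b hb
    rw [evS_C]
    exact act_mem hact a b hb
  | add p q hp hq =>
    intro b hb
    rw [map_add, LinearMap.add_apply]
    exact N.add_mem (hp b hb) (hq b hb)
  | monomial n a h =>
    intro b hb
    rw [pow_succ, ← mul_assoc, evS_mul, evS_X]
    exact h _ (N.smul_mem _ hb)

theorem pow_psiE (mul_psi : ∀ n, act f (psi (n + 1)) = psi n) (m k : ℕ) :
    act (f ^ m) (psi (k + m)) = psi k := by
  induction m with
  | zero => simp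
  | succ m ih =>
    rw [pow_succ, map_mul, Module.End.mul_apply, ← add_assoc, mul_psi, ih]

theorem exists_pw
    (leibX : ∀ i j b, d i (act (X j) b) = act (pderiv i (X j)) b + act (X j) (d i b))
    (mul_psi : ∀ n, act f (psi (n + 1)) = psi n)
    (d_psi : ∀ i, ∀ n : ℕ, d i (psi n) = (s - (n : E)) • act (pderiv i f) (psi (n + 1)))
    (hd : ∀ i, ∀ b ∈ N, d i b ∈ N) (h0 : act f (psi 0) ∈ N) (w : List σ) :
    ∃ Q : Polynomial (MvPolynomial σ ℂ), (∀ z : ℂ, Q.eval (C z) = pw f w z) ∧
      evS act s (Q * Polynomial.C f) (psi w.length) ∈ N := by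
  induction w with
  | nil =>
    refine ⟨1, fun z => by simp [pw], ?_⟩
    rw [one_mul, evS_C]
    exact h0
  | cons i w ih =>
    obtain ⟨Q, hQ, hN⟩ := ih
    refine ⟨Polynomial.C f * DP i Q + (Polynomial.X + 1 - (w.length : Polynomial _)) *
      Polynomial.C (pderiv i f) * Q, fun z => ?_, ?_⟩
    · rw [pw, Polynomial.eval_add, Polynomial.eval_mul, Polynomial.eval_mul, Polynomial.eval_mul,
        Polynomial.eval_C, Polynomial.eval_C, DP_eval, hQ]
      simp
    · have h1 := hd i _ hN
      have key : evS act s ((Polynomial.C f * DP i Q +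
          (Polynomial.X + 1 - (w.length : Polynomial _)) *
            Polynomial.C (pderiv i f) * Q) * Polynomial.C f) (psi (w.length + 1))
          = d i (evS act s (Q * Polynomial.C f) (psi w.length)) := by
        rw [leibS leibX i, d_psi]
        have h2 : psi w.length = evS act s (Polynomial.C f) (psi (w.length + 1)) := by
          rw [evS_C, mul_psi]
        have h3 : (s - ((w.length : ℕ) : E)) • act (pderiv i f) (psi (w.length + 1))
            = evS act s ((Polynomial.X - (w.length : Polynomial _)) *
              Polynomial.C (pderiv i f)) (psi (w.length + 1)) := by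
          rw [evS_mul, evS_C, map_sub, LinearMap.sub_apply, evS_X, evS_nat, sub_smul]
        have h4 : DP i (Q * Polynomial.C f) =
            DP i Q * Polynomial.C f + Q * Polynomial.C (pderiv i f) := by
          clear hQ hN h1 h2 h3
          induction Q using Polynomial.induction_on' with
          | add p q hp hq =>
            rw [add_mul, DP_add, hp, hq, DP_add]
            ring
          | monomial n a =>
            rw [Polynomial.monomial_mul_C, DP_monomial, DP_monomial, Polynomial.monomial_mul_C,
              Polynomial.monomial_mul_C, Derivation.leibniz, ← map_add]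
            congr 1
            simp only [smul_eq_mul]
            ring
        rw [h3, h4, h2, ← evS_mul, ← evS_mul, ← LinearMap.add_apply, ← map_add]
        congr 2
        ring
      rw [List.length_cons, key]
      exact h1

theorem eq_of_natP {P Q : Polynomial (MvPolynomial σ ℂ)} (N : ℕ)
    (h : ∀ n : ℕ, N ≤ n → P.eval (C (n : ℂ)) = Q.eval (C (n : ℂ))) : P = Q := by
  refine Polynomial.eq_of_infinite_eval_eq P Q ?_
  refine Set.infinite_of_injective_forall_mem
    (f := fun n : ℕ => (C ((n + N : ℕ) : ℂ) : MvPolynomial σ ℂ)) ?_ ?_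
  · intro a b hab
    have := C_injective _ _ hab
    have : a + N = b + N := by exact_mod_cast this
    omega
  · intro n
    exact h (n + N) (by omega)

theorem list_mem {ι : Type*} (l : List ι) (F : ι → Polynomial (MvPolynomial σ ℂ)) (x : B)
    (h : ∀ i ∈ l, evS act s (F i) x ∈ N) : evS act s (l.map F).sum x ∈ N := by
  induction l with
  | nil => simp
  | cons i l ih =>
    rw [List.map_cons, List.sum_cons, map_add, LinearMap.add_apply]
    exact N.add_mem (h i List.mem_cons_self) (ih fun j hj => h j (List.mem_cons_of_mem _ hj))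

theorem local_mem
    (leibX : ∀ i j b, d i (act (X j) b) = act (pderiv i (X j)) b + act (X j) (d i b))
    (mul_psi : ∀ n, act f (psi (n + 1)) = psi n)
    (d_psi : ∀ i, ∀ n : ℕ, d i (psi n) = (s - (n : E)) • act (pderiv i f) (psi (n + 1)))
    (hact : ∀ i, ∀ b ∈ N, act (X i) b ∈ N)
    (hd : ∀ i, ∀ b ∈ N, d i b ∈ N) (h0 : act f (psi 0) ∈ N) (hf : f ≠ 0) {b : Polynomial ℂ}
    (h : MvPolynomial σ ℂ) (P : List (Polynomial (MvPolynomial σ ℂ) × List σ))
    (hP : ∀ n : ℕ, C (b.eval (n : ℂ)) * h * f ^ n =
        (P.map fun aw => aw.1.eval (n : MvPolynomial σ ℂ) * dWord aw.2 (f ^ (n + 1))).sum) :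
    act h ((Polynomial.aeval s b) • psi 0) ∈ N := by
  choose Q hQ hN' using exists_pw (N := N) leibX mul_psi d_psi hd h0
  obtain ⟨M, hM⟩ : ∃ M, ∀ aw ∈ P, aw.2.length ≤ M := by
    refine ⟨(P.map fun aw => aw.2.length).sum, fun aw haw => ?_⟩
    exact List.single_le_sum (by simp) _ (List.mem_map_of_mem haw)
  have hpoly : b.map C * Polynomial.C h * Polynomial.C (f ^ M) =
      (P.map fun aw => aw.1 * (Polynomial.C (f ^ (M + 1 - aw.2.length)) * Q aw.2)).sum := by
    refine eq_of_natP M fun n hn => ?_
    have h1 := hP n
    have h3 : f ^ (n - M) * (C (b.eval (n : ℂ)) * h * f ^ M) =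
        C (b.eval (n : ℂ)) * h * f ^ n := by
      rw [mul_left_comm, ← pow_add, Nat.sub_add_cancel hn]
    refine mul_left_cancel₀ (pow_ne_zero (n - M) hf) ?_
    rw [Polynomial.eval_mul, Polynomial.eval_mul, Polynomial.eval_C, Polynomial.eval_C,
      Polynomial.eval_map, Polynomial.eval₂_at_apply, h3, h1, Polynomial.eval_listSum,
      List.map_map, ← List.sum_map_mul_left]
    congr 1
    refine List.map_congr_left fun aw haw => ?_
    have h4 := hM aw haw
    rw [Function.comp_apply, dWord_pow f aw.2 n (by omega), show n + 1 - aw.2.length =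
      (n - M) + (M + 1 - aw.2.length) by omega, pow_add, Polynomial.eval_mul,
      Polynomial.eval_mul, Polynomial.eval_C, hQ]
    simp only [map_natCast]
    ring
  have h5 : evS act s _ (psi M) = evS act s _ (psi M) :=
    congrArg (fun p => evS act s p (psi M)) hpoly
  have h6 := pow_psiE mul_psi M 0
  rw [zero_add] at h6
  rw [evS_mul, evS_mul, evS_C, evS_C, h6, evS_map] at h5
  rw [map_smul, h5]
  refine list_mem P _ _ fun aw haw => ?_
  have h7 := hM aw haw
  have h8 : Polynomial.C (f ^ (M + 1 - aw.2.length)) * Q aw.2 =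
      (Q aw.2 * Polynomial.C f) * Polynomial.C (f ^ (M - aw.2.length)) := by
    rw [show M + 1 - aw.2.length = (M - aw.2.length) + 1 by omega, pow_succ, map_mul]
    ring
  have h9 := pow_psiE mul_psi (M - aw.2.length) aw.2.length
  rw [show aw.2.length + (M - aw.2.length) = M by omega] at h9
  rw [h8, evS_mul, evS_mul act s (Q aw.2 * _), evS_C, h9]
  exact evS_mem hact _ _ (hN' aw.2)

end ERoot

/-- MODULE EROOT -/
theorem eroot : ERootStmt := by
  intro σ _ E B _ _ _ _ _ _ f s act d leibX psi mul_psi d_psi N hact hd h0 b hb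
  rcases eq_or_ne f 0 with rfl | hf
  · have h1 := mul_psi 0
    rw [map_zero, LinearMap.zero_apply] at h1
    rw [← h1, smul_zero]
    exact N.zero_mem
  let J : Ideal (MvPolynomial σ ℂ) :=
    { carrier := {u | act u ((Polynomial.aeval s b) • psi 0) ∈ N}
      zero_mem' := by simp
      add_mem' := by
        intro u v hu hv
        simp only [Set.mem_ofPred_eq, map_add, LinearMap.add_apply] at *
        exact N.add_mem hu hv
      smul_mem' := by
        intro u v hv
        simp only [Set.mem_ofPred_eq, smul_eq_mul, map_mul, Module.End.mul_apply] at *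
        exact act_mem hact u _ hv }
  have hJ : J = ⊤ := by
    by_contra hJ
    obtain ⟨m, hm, hJm⟩ := Ideal.exists_le_maximal J hJ
    obtain ⟨q, hq⟩ := isMaximal_iff_eq_vanishingIdeal_singleton.1 hm
    obtain ⟨h, hne, P, hP⟩ := hb q
    have h1 : h ∈ J := local_mem leibX mul_psi d_psi hact hd h0 hf h P hP
    have h2 := hJm h1
    rw [hq, mem_vanishingIdeal_singleton_iff] at h2
    rw [aeval_eq_eval] at h2
    exact hne h2
  have h1 : (1 : MvPolynomial σ ℂ) ∈ J := by rw [hJ]; trivial
  have h2 : act 1 ((Polynomial.aeval s b) • psi 0) ∈ N := h1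
  simpa using h2

end Pool.Agent.Helper30_Simp.H42
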