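import Pool.Agent.Helper42_Simp.Rq

/-!
# Module POLYR: generating functions of lattice points of polyhedra
-/

set_option autoImplicit false

namespace Pool.Agent.Helper30_Simp.H42

open Finset

section Basic

variable {σ ρ : Type} [Fintype σ]

/-- the points of `A` with given values of `n` and the sum of the coordinates -/
def GS (n : σ → ℕ) (A : Set (σ → ℕ)) (l d : ℕ) : Set (σ → ℕ) :=
  {u | u ∈ A ∧ ∑ i, n i * u i = l ∧ ∑ i, u i = d}

theorem GS_finite (n : σ → ℕ) (A : Set (σ → ℕ)) (l d : ℕ) : (GS n A l d).Finite := by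
  classical
  refine (Set.finite_Iic (fun _ : σ => d)).subset fun u hu i => ?_
  rw [← hu.2.2]
  exact Finset.single_le_sum (f := fun i => u i) (fun _ _ => Nat.zero_le _) (Finset.mem_univ i)

theorem coeff_gf (n : σ → ℕ) (A : Set (σ → ℕ)) (l d : ℕ) :
    PowerSeries.coeff d (gf n A l) = ((GS n A l d).ncard : ℤ) := by
  rw [gf, PowerSeries.coeff_mk]
  rfl

theorem gf_union (n : σ → ℕ) {A B : Set (σ → ℕ)} (h : Disjoint A B) (l : ℕ) :
    gf n (A ∪ B) l = gf n A l + gf n B l := by
  refine PowerSeries.ext fun d => ?_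
  rw [map_add, coeff_gf, coeff_gf, coeff_gf, ← Nat.cast_add, ← Set.ncard_union_eq
    (by
      rw [Set.disjoint_left] at h ⊢
      exact fun u hu hu' => h hu.1 hu'.1) (GS_finite n A l d) (GS_finite n B l d)]
  congr 2
  ext u
  simp only [GS, Set.mem_ofPred_eq, Set.mem_union]
  tauto

theorem gf_finite (n : σ → ℕ) {A : Set (σ → ℕ)} (h : A.Finite) :
    ∃ N, ∀ l, N ≤ l → gf n A l = 0 := by
  classical
  refine ⟨(h.toFinset.sup fun u => ∑ i, n i * u i) + 1, fun l hl => ?_⟩
  refine PowerSeries.ext fun d => ?_
  rw [coeff_gf, map_zero]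
  have : GS n A l d = ∅ := by
    rw [Set.eq_empty_iff_forall_notMem]
    intro u hu
    have h1 : ∑ i, n i * u i ≤ h.toFinset.sup fun u => ∑ i, n i * u i :=
      Finset.le_sup (f := fun u : σ → ℕ => ∑ i, n i * u i) (h.mem_toFinset.2 hu.1)
    have h2 := hu.2.1
    omega
  rw [this, Set.ncard_empty, Nat.cast_zero]

/-- Dickson's lemma for polyhedra without recession -/
theorem poly_finite [Fintype ρ] (a : ρ → σ → ℤ) (E : Set ρ) (b : ρ → ℤ)
    (h : ∀ u ∈ poly a E 0, u = 0) : (poly a E b).Finite := by
  by_contra hinf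
  have hinf : (poly a E b).Infinite := hinf
  let g : ℕ → (σ → ℕ) × (ρ → ℕ) := fun k =>
    ((hinf.natEmbedding _ k).1,
      fun r => (∑ i, a r i * ((hinf.natEmbedding _ k).1 i : ℤ) - b r).toNat)
  obtain ⟨m, m', hmm, hle⟩ := (wellQuasiOrdered_le (α := (σ → ℕ) × (ρ → ℕ))) g
  set u := (hinf.natEmbedding _ m).1 with hu
  set u' := (hinf.natEmbedding _ m').1 with hu'
  have hmem : u ∈ poly a E b := (hinf.natEmbedding _ m).2
  have hmem' : u' ∈ poly a E b := (hinf.natEmbedding _ m').2
  have hne : u ≠ u' := fun he =>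
    hmm.ne ((hinf.natEmbedding _).injective (Subtype.val_injective he))
  have h1 : ∀ i, u i ≤ u' i := fun i => hle.1 i
  have h2 : ∀ r, (∑ i, a r i * (u i : ℤ) - b r).toNat
      ≤ (∑ i, a r i * (u' i : ℤ) - b r).toNat := fun r => hle.2 r
  have h3 : ∀ r, ∑ i, a r i * ((u' i - u i : ℕ) : ℤ)
      = ∑ i, a r i * (u' i : ℤ) - ∑ i, a r i * (u i : ℤ) := by
    intro r
    rw [← Finset.sum_sub_distrib]
    refine Finset.sum_congr rfl fun i _ => ?_
    rw [Nat.cast_sub (h1 i)]
    ring
  have h4 : (fun i => u' i - u i) ∈ poly a E 0 := by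
    intro r
    refine ⟨fun hr => ?_, fun hr => ?_⟩
    · rw [h3, (hmem r).1 hr, (hmem' r).1 hr]
      simp
    · rw [h3]
      have h5 := (hmem r).2 hr
      have h6 := (hmem' r).2 hr
      have h7 := h2 r
      simp only [Pi.zero_apply]
      omega
  have h5 := h _ h4
  apply hne
  funext i
  have h6 := congrFun h5 i
  have h7 := h1 i
  simp only [Pi.zero_apply] at h6
  omega

end Basic

section Main

variable {σ ρ : Type} [Fintype σ] [Fintype ρ] {a : ρ → σ → ℤ} {n : σ → ℕ}

omit [Fintype ρ] in
theorem poly_split (E : Set ρ) (b : ρ → ℤ) (r : ρ) (hr : r ∉ E) [DecidableEq ρ] :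
    poly a E b = poly a E (Function.update b r (b r + 1)) ∪ poly a (insert r E) b ∧
      Disjoint (poly a E (Function.update b r (b r + 1))) (poly a (insert r E) b) := by
  constructor
  · ext u
    simp only [poly, Set.mem_union, Set.mem_ofPred_eq, Set.mem_insert_iff]
    constructor
    · intro h
      by_cases h1 : b r + 1 ≤ ∑ i, a r i * (u i : ℤ)
      · left
        intro r'
        by_cases hr' : r' = r
        · subst hr'
          rw [Function.update_self]
          exact ⟨fun h2 => absurd h2 hr, fun _ => h1⟩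
        · rw [Function.update_of_ne hr']
          exact h r'
      · right
        intro r'
        by_cases hr' : r' = r
        · subst hr'
          have := (h r').2 hr
          exact ⟨fun _ => by omega, fun h2 => absurd (Or.inl rfl) h2⟩
        · refine ⟨fun h2 => (h r').1 (h2.resolve_left hr'), fun h2 => (h r').2 fun h3 => h2 (.inr h3)⟩
    · rintro (h | h)
      · intro r'
        by_cases hr' : r' = r
        · subst hr'
          have := (h r').2 hr
          rw [Function.update_self] at this
          exact ⟨fun h2 => absurd h2 hr, fun _ => by omega⟩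
        · have := h r'
          rw [Function.update_of_ne hr'] at this
          exact this
      · intro r'
        by_cases hr' : r' = r
        · subst hr'
          have := (h r').1 (.inl rfl)
          exact ⟨fun h2 => absurd h2 hr, fun _ => by omega⟩
        · exact ⟨fun h2 => (h r').1 (.inr h2), fun h2 => (h r').2 fun h3 =>
            h2 (h3.resolve_left hr')⟩
  · rw [Set.disjoint_left]
    intro u hu hu'
    have h1 := (hu r).2 hr
    have h2 := (hu' r).1 (Set.mem_insert r E)
    rw [Function.update_self] at h1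
    omega

/-- raising the right hand sides by one point after the other -/
theorem raise {P : Set (ℕ × ℕ)} (E : Set ρ) (b : ρ → ℤ)
    (ih : ∀ r, r ∉ E → ∀ b' : ρ → ℤ, (∀ r', b r' ≤ b' r') →
      RQ (PowerSeries.X : PowerSeries ℤ) P (gf n (poly a (insert r E) b')))
    (k : ℕ) : ∀ t : ρ → ℕ, (∀ r ∈ E, t r = 0) → ∑ r, t r = k →
      RQ (PowerSeries.X : PowerSeries ℤ) P
        (fun l => gf n (poly a E b) l - gf n (poly a E fun r => b r + t r) l) := by
  classical
  induction k with
  | zero =>
    intro t _ ht
    have h1 : ∀ r, t r = 0 := fun r =>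
      Nat.le_zero.1 (ht ▸ Finset.single_le_sum (f := t) (fun _ _ => Nat.zero_le _) (mem_univ r))
    refine RQ.zero.congr fun l => ?_
    simp [h1]
  | succ k ihk =>
    intro t hE ht
    obtain ⟨r, hr⟩ : ∃ r, t r ≠ 0 := by
      by_contra hcon
      push Not at hcon
      simp [hcon] at ht
    have hrE : r ∉ E := fun h => hr (hE r h)
    set t' : ρ → ℕ := Function.update t r (t r - 1) with ht'
    have h1 : ∑ r, t' r = k := by
      have h2 := Finset.sum_update_of_mem (mem_univ r) t (t r - 1)
      have h3 := Finset.add_sum_erase univ t (mem_univ r)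
      rw [Finset.sdiff_singleton_eq_erase] at h2
      rw [ht', h2]
      omega
    have hE' : ∀ r ∈ E, t' r = 0 := by
      intro r' hr'
      have : r' ≠ r := by rintro rfl; exact hrE hr'
      rw [ht', Function.update_of_ne this]
      exact hE r' hr'
    have h2 := ihk t' hE' h1
    have h3 := ih r hrE (fun r => b r + t' r) (fun r' => by omega)
    refine (h2.add h3).congr fun l => ?_
    obtain ⟨h4, h5⟩ := poly_split (a := a) E (fun r => b r + t' r) r hrE
    have h6 : Function.update (fun r => b r + (t' r : ℤ)) r ((b r + t' r) + 1)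
        = fun r => b r + (t r : ℤ) := by
      funext r'
      by_cases hr' : r' = r
      · subst hr'
        rw [Function.update_self, ht', Function.update_self]
        have : (1 : ℕ) ≤ t r' := Nat.one_le_iff_ne_zero.2 hr
        push_cast [Nat.cast_sub this]
        ring
      · rw [Function.update_of_ne hr', ht', Function.update_of_ne hr']
    rw [h6] at h4 h5
    rw [h4, gf_union n h5]
    ring

omit [Fintype ρ] in
theorem gf_add (E : Set ρ) (b : ρ → ℤ)
    (hb : ∀ i, ∃ r, 0 ≤ b r ∧ a r i = 1 ∧ ∀ j, j ≠ i → a r j = 0)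
    (κ : σ → ℕ) (t : ρ → ℕ)
    (ht : ∀ r, (t r : ℤ) = ∑ i, a r i * (κ i : ℤ)) (l : ℕ) :
    gf n (poly a E fun r => b r + t r) (l + ∑ i, n i * κ i)
      = PowerSeries.X ^ (∑ i, κ i) * gf n (poly a E b) l := by
  have hrow : ∀ (r : ρ) (i : σ), a r i = 1 → (∀ j, j ≠ i → a r j = 0) → ∀ u : σ → ℕ,
      ∑ j, a r j * (u j : ℤ) = u i := by
    intro r i h1 h2 u
    rw [Finset.sum_eq_single i]
    · rw [h1, one_mul]
    · intro j _ hj
      rw [h2 j hj, zero_mul]
    · intro h
      exact absurd (mem_univ i) h
  have hle : ∀ u ∈ poly a E (fun r => b r + t r), ∀ i, κ i ≤ u i := by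
    intro u hu i
    obtain ⟨r, hr, h1, h2⟩ := hb i
    have h3 := hrow r i h1 h2 u
    have h4 := ht r
    rw [hrow r i h1 h2 κ] at h4
    by_cases hrE : r ∈ E
    · have h5 : ∑ j, a r j * (u j : ℤ) = b r + t r := (hu r).1 hrE
      rw [h3] at h5
      omega
    · have h5 : b r + t r ≤ ∑ j, a r j * (u j : ℤ) := (hu r).2 hrE
      rw [h3] at h5
      omega
  refine PowerSeries.ext fun d => ?_
  rw [PowerSeries.coeff_X_pow_mul', coeff_gf]
  split_ifs with hd
  · rw [coeff_gf]
    congr 1
    symm
    refine Set.ncard_congr (fun u _ => fun i => u i + κ i) ?_ ?_ ?_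
    · rintro u ⟨h1, h2, h3⟩
      refine ⟨fun r => ?_, ?_, ?_⟩
      · have h4 : ∑ i, a r i * ((u i + κ i : ℕ) : ℤ)
            = ∑ i, a r i * (u i : ℤ) + ∑ i, a r i * (κ i : ℤ) := by
          rw [← Finset.sum_add_distrib]
          refine Finset.sum_congr rfl fun i _ => ?_
          push_cast
          ring
        have h5 := ht r
        refine ⟨fun h => ?_, fun h => ?_⟩
        · show ∑ i, a r i * ((u i + κ i : ℕ) : ℤ) = b r + t r
          rw [h4, (h1 r).1 h, h5]
        · show b r + t r ≤ ∑ i, a r i * ((u i + κ i : ℕ) : ℤ)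
          rw [h4]
          have := (h1 r).2 h
          omega
      · rw [← h2, ← Finset.sum_add_distrib]
        exact Finset.sum_congr rfl fun i _ => by ring
      · have h4 : ∑ i, (u i + κ i) = ∑ i, u i + ∑ i, κ i := Finset.sum_add_distrib
        rw [h4, h3]
        omega
    · intro u v _ _ huv
      funext i
      have : u i + κ i = v i + κ i := congrFun huv i
      omega
    · rintro u ⟨h1, h2, h3⟩
      have hle' := hle u h1
      refine ⟨fun i => u i - κ i, ⟨fun r => ?_, ?_, ?_⟩, ?_⟩
      · have h4 : ∑ i, a r i * ((u i - κ i : ℕ) : ℤ)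
            = ∑ i, a r i * (u i : ℤ) - ∑ i, a r i * (κ i : ℤ) := by
          rw [← Finset.sum_sub_distrib]
          refine Finset.sum_congr rfl fun i _ => ?_
          rw [Nat.cast_sub (hle' i)]
          ring
        have h6 := ht r
        refine ⟨fun h => ?_, fun h => ?_⟩
        · have h5 : ∑ j, a r j * (u j : ℤ) = b r + t r := (h1 r).1 h
          show ∑ i, a r i * ((u i - κ i : ℕ) : ℤ) = b r
          omega
        · have h5 : b r + t r ≤ ∑ j, a r j * (u j : ℤ) := (h1 r).2 h
          show b r ≤ ∑ i, a r i * ((u i - κ i : ℕ) : ℤ)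
          omega
      · have h4 : ∑ i, n i * (u i - κ i) + ∑ i, n i * κ i = ∑ i, n i * u i := by
          rw [← Finset.sum_add_distrib]
          refine Finset.sum_congr rfl fun i _ => ?_
          rw [← Nat.mul_add, Nat.sub_add_cancel (hle' i)]
        show ∑ i, n i * (u i - κ i) = l
        omega
      · have h4 : ∑ i, (u i - κ i) + ∑ i, κ i = ∑ i, u i := by
          rw [← Finset.sum_add_distrib]
          exact Finset.sum_congr rfl fun i _ => Nat.sub_add_cancel (hle' i)
        show ∑ i, (u i - κ i) = d - ∑ i, κ i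
        omega
      · funext i
        exact Nat.sub_add_cancel (hle' i)
  · have : GS n (poly a E fun r => b r + t r) (l + ∑ i, n i * κ i) d = ∅ := by
      rw [Set.eq_empty_iff_forall_notMem]
      rintro u ⟨h1, _, h3⟩
      have h4 : ∑ i, κ i ≤ ∑ i, u i := Finset.sum_le_sum fun i _ => hle u h1 i
      omega
    rw [this, Set.ncard_empty, Nat.cast_zero]

end Main

/-- MODULE POLYR -/
theorem polyr : PolyRStmt := by
  classical
  intro σ ρ _ _ a n P E b hb hE
  -- induction on the number of inequalities
  have main : ∀ (k : ℕ) (E : Set ρ) (b : ρ → ℤ), (Eᶜ).ncard = k →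
      (∀ i, ∃ r, 0 ≤ b r ∧ a r i = 1 ∧ ∀ j, j ≠ i → a r j = 0) →
      (∀ E' : Set ρ, E ⊆ E' → (∃ u ∈ poly a E' 0, u ≠ 0) → ∃ κ ∈ poly a E' 0, κ ≠ 0 ∧
        (∑ i, n i * κ i = 0 ∨ (0 < ∑ i, n i * κ i ∧ (∑ i, κ i, ∑ i, n i * κ i) ∈ P))) →
      RQ (PowerSeries.X : PowerSeries ℤ) P (gf n (poly a E b)) := by
    intro k
    induction k with
    | zero =>
      intro E b hk hb hE
      by_cases h0 : ∃ u ∈ poly a E 0, u ≠ 0
      · -- no inequalities, but a nonzero recession vector: impossible unless treated as below
        obtain ⟨κ, hκ, hκ0, hcase⟩ := hE E subset_rfl h0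
        have hEu : ∀ r, r ∈ E := by
          intro r
          by_contra hr
          have : (Eᶜ : Set ρ) = ∅ := (Set.ncard_eq_zero (Set.toFinite _)).1 hk
          have h1 : r ∈ (Eᶜ : Set ρ) := hr
          rw [this] at h1
          exact h1
        exfalso
        apply hκ0
        funext i
        obtain ⟨r, _, h1, h2⟩ := hb i
        have h3 := (hκ r).1 (hEu r)
        rw [Finset.sum_eq_single i (fun j _ hj => by rw [h2 j hj, zero_mul])
          (fun h => absurd (mem_univ i) h), h1, one_mul] at h3
        simpa using h3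
      · push Not at h0
        obtain ⟨N, hN⟩ := gf_finite n (poly_finite a E b h0)
        exact .fin _ N hN
    | succ k ih =>
      intro E b hk hb hE
      by_cases h0 : ∃ u ∈ poly a E 0, u ≠ 0
      · obtain ⟨κ, hκ, hκ0, hcase⟩ := hE E subset_rfl h0
        have hnn : ∀ r, 0 ≤ ∑ i, a r i * (κ i : ℤ) := by
          intro r
          by_cases hr : r ∈ E
          · rw [(hκ r).1 hr]; simp
          · exact (hκ r).2 hr
        let t : ρ → ℕ := fun r => (∑ i, a r i * (κ i : ℤ)).toNat
        have ht : ∀ r, (t r : ℤ) = ∑ i, a r i * (κ i : ℤ) := fun r => Int.toNat_of_nonneg (hnn r)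
        have htE : ∀ r ∈ E, t r = 0 := by
          intro r hr
          have h1 := ht r
          rw [(hκ r).1 hr] at h1
          simpa using h1
        have hdiff := raise (a := a) (n := n) (P := P) E b (fun r hr b' hb' => by
          refine ih (insert r E) b' ?_ (fun i => ?_) (fun E' hE' => hE E'
            ((Set.subset_insert r E).trans hE'))
          · have h1 : (Eᶜ : Set ρ) = insert r ((insert r E)ᶜ) := by
              ext x
              simp only [Set.mem_compl_iff, Set.mem_insert_iff]
              by_cases hx : x = r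
              · subst hx; simp [hr]
              · simp [hx]
            rw [h1, Set.ncard_insert_of_notMem (by simp) (Set.toFinite _)] at hk
            omega
          · obtain ⟨r', h1, h2⟩ := hb i
            exact ⟨r', h1.trans (hb' r'), h2⟩) (∑ r, t r) t htE rfl
        rcases hcase with h1 | ⟨h1, h2⟩
        · -- the value of `n` at `κ` is zero
          have h2 : ∀ l, gf n (poly a E fun r => b r + t r) l
              = PowerSeries.X ^ (∑ i, κ i) * gf n (poly a E b) l := by
            intro l
            have := gf_add (n := n) E b hb κ t ht l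
            rwa [h1, add_zero] at this
          have hpos : ∑ i, κ i ≠ 0 := by
            intro h3
            apply hκ0
            funext i
            exact Nat.le_zero.1 (h3 ▸ Finset.single_le_sum (f := κ)
              (fun _ _ => Nat.zero_le _) (mem_univ i))
          have hunit : IsUnit (1 - PowerSeries.X ^ (∑ i, κ i) : PowerSeries ℤ) := by
            rw [PowerSeries.isUnit_iff_constantCoeff]
            simp [hpos]
          obtain ⟨w, hw⟩ := hunit
          refine (hdiff.smul ((w⁻¹ : (PowerSeries ℤ)ˣ) : PowerSeries ℤ)).congr fun l => ?_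
          rw [h2 l]
          have h3 : gf n (poly a E b) l - PowerSeries.X ^ (∑ i, κ i) * gf n (poly a E b) l
              = (w : PowerSeries ℤ) * gf n (poly a E b) l := by
            rw [hw]; ring
          rw [h3, ← mul_assoc, Units.inv_mul, one_mul]
        · refine .step _ _ _ h2 ((hdiff.shift (∑ i, n i * κ i)).congr fun l => ?_)
          rw [gf_add (n := n) E b hb κ t ht l]
      · push Not at h0
        obtain ⟨N, hN⟩ := gf_finite n (poly_finite a E b h0)
        exact .fin _ N hN
  exact main _ E b rfl hb hE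

end Pool.Agent.Helper30_Simp.H42
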